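import Mathlib
import Pool.Agent.Helper726_LocalInv.Basic

set_option autoImplicit false

open FirstOrder FirstOrder.Language

namespace Helper726LI

section TypesSec

variable {L : FirstOrder.Language.{0, 0}} {M N : Type}

/-- A formula uses only finitely many of the parameter variables. -/
theorem exists_finite_support {α : Type} (ψ : L.Formula (α ⊕ M)) :
    ∃ (P : Finset M) (ψ' : L.Formula (α ⊕ P)), ∀ (X : Type) [L.Structure X] (v : α → X)
      (g : M → X), ψ.Realize (Sum.elim v g) ↔ ψ'.Realize (Sum.elim v (fun p => g p.1)) := by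
  classical
  refine ⟨ψ.freeVarFinset.toRight, ψ.restrictFreeVar (fun x => Sum.casesOn x.1
        (fun a _ => Sum.inl a) (fun x hx => Sum.inr ⟨x, by simpa using hx⟩) x.2), ?_⟩
  intro X _ v g
  unfold Formula.Realize
  refine (BoundedFormula.realize_restrictFreeVar _ ?_).symm
  rintro ⟨a | a, ha⟩ <;> rfl

/-- Same, with the finite set of parameters enlarged at will. -/
theorem exists_support_of_family {α ι : Type} [Finite ι] (ψ : ι → L.Formula (α ⊕ M)) :
    ∃ (P : Finset M) (ψ' : ι → L.Formula (α ⊕ P)), ∀ (i : ι) (X : Type) [L.Structure X]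
      (v : α → X)
      (g : M → X), (ψ i).Realize (Sum.elim v g) ↔
        (ψ' i).Realize (Sum.elim v (fun p => g p.1)) := by
  classical
  choose P ψ' h using fun i => exists_finite_support (ψ i)
  have := Fintype.ofFinite ι
  refine ⟨Finset.univ.biUnion P, fun i => (ψ' i).relabel (Sum.map id
    (fun p => ⟨p.1, Finset.mem_biUnion.2 ⟨i, Finset.mem_univ i, p.2⟩⟩)), ?_⟩
  intro i X _ v g
  rw [h i X v g, Formula.realize_relabel]
  have : Sum.elim v (fun p : (P i) => g p.1) = (Sum.elim v (fun p : (Finset.univ.biUnion P) =>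
      g p.1)) ∘ (Sum.map id
    (fun p : (P i) => ⟨p.1, Finset.mem_biUnion.2 ⟨i, Finset.mem_univ i, p.2⟩⟩)) := by
    funext x
    rcases x with x | x <;> rfl
  rw [this]

variable [L.Structure M] [L.Structure N] {f : M ↪ₑ[L] N}

theorem tpEq_of_fin {m : ℕ} {b b' : Fin m → N}
    (h : ∀ (k : ℕ) (ψ : L.Formula (Fin m ⊕ Fin k)) (c : Fin k → M),
          (ψ.Realize (Sum.elim b (fun i => f (c i))) ↔
            ψ.Realize (Sum.elim b' (fun i => f (c i))))) : tpEq f b b' := by
  rintro S ⟨ψ, hψ⟩
  obtain ⟨P, ψ', h'⟩ := exists_finite_support ψ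
  rw [hψ, hψ, h' N b f, h' N b' f]
  have e := P.equivFin
  have key : ∀ v : Fin m → N, ψ'.Realize (Sum.elim v (fun p => f p.1)) ↔
      (ψ'.relabel (Sum.map id e)).Realize (Sum.elim v (fun i => f (e.symm i).1)) := by
    intro v
    rw [Formula.realize_relabel]
    have : Sum.elim v (fun p : P => f p.1) =
        (Sum.elim v fun i => f (e.symm i).1) ∘ Sum.map id e := by
      funext x
      rcases x with x | x
      · rfl
      · simp
    rw [this]
  rw [key, key]
  exact h _ _ _

theorem tpEq.fin {m : ℕ} {b b' : Fin m → N} (h : tpEq f b b')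
    (k : ℕ) (ψ : L.Formula (Fin m ⊕ Fin k)) (c : Fin k → M) :
          (ψ.Realize (Sum.elim b (fun i => f (c i))) ↔
            ψ.Realize (Sum.elim b' (fun i => f (c i)))) := by
  have key : ∀ v : Fin m → N, (fun x => Sum.elim v f ((Sum.map id c) x)) =
      Sum.elim v (fun i => f (c i)) := by
    intro v
    funext x
    rcases x with x | x <;> rfl
  have := h _ (Mdef.formula f ψ (Sum.map id c))
  simp only [Set.mem_ofPred_eq, key] at this
  exact this

/-- The hypothesis that `N` realizes all finitary types over `M`, as in the frozen statement. -/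
def RealizesTypes (f : M ↪ₑ[L] N) : Prop :=
  ∀ (m : ℕ) (M' : Type) [L.Structure M'] (h : M ↪ₑ[L] M') (d : Fin m → M'),
        ∃ b : Fin m → N, ∀ (k : ℕ) (ψ : L.Formula (Fin m ⊕ Fin k)) (c : Fin k → M),
          (ψ.Realize (Sum.elim d (fun i => h (c i))) ↔
            ψ.Realize (Sum.elim b (fun i => f (c i))))

theorem RealizesTypes.general (HN : RealizesTypes f) {α : Type} [Finite α]
    (M' : Type) [L.Structure M'] (h : M ↪ₑ[L] M') (d : α → M') :
    ∃ b : α → N, ∀ ψ : L.Formula (α ⊕ M),
      ψ.Realize (Sum.elim d h) ↔ ψ.Realize (Sum.elim b f) := by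
  obtain ⟨m, ⟨e⟩⟩ := Finite.exists_equiv_fin α
  obtain ⟨b₀, hb₀⟩ := HN m M' h (d ∘ e.symm)
  refine ⟨b₀ ∘ e, fun ψ => ?_⟩
  obtain ⟨P, ψ', h'⟩ := exists_finite_support ψ
  rw [h' M' d h, h' N _ f]
  have eP := P.equivFin
  have := hb₀ _ (ψ'.relabel (Sum.map e eP)) (fun i => (eP.symm i).1)
  rw [Formula.realize_relabel, Formula.realize_relabel] at this
  convert this using 2
  · funext x
    rcases x with x | x <;> simp
  · funext x
    rcases x with x | x <;> simp

open Filter in
/-- The diagonal embedding of a structure in its ultrapower is elementary. -/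
noncomputable def diag {ι : Type} [Nonempty M] (u : Ultrafilter ι) :
    M ↪ₑ[L] ((u : Filter ι).Product (fun _ => M)) where
  toFun m := ((fun _ => m : ι → M) : (u : Filter ι).Product (fun _ => M))
  map_formula' := by
    intro n φ x
    have := Ultraproduct.realize_formula_cast (u := u) φ (fun (i : Fin n) (_ : ι) => x i)
    rw [Filter.eventually_const] at this
    exact this

/-- Compactness: a family of `M`-definable sets with the finite intersection property has a
common point in `N`. -/
theorem compactness [Nonempty M] (HN : RealizesTypes f) {α : Type} [Finite α]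
    (F : Set (Set (α → N))) (hF : ∀ S ∈ F, Mdef f S)
    (hfin : ∀ G : Finset F, ∃ v : α → N, ∀ S ∈ G, v ∈ S.1) :
    ∃ v : α → N, ∀ S ∈ F, v ∈ S := by
  classical
  have hpt : ∀ G : Finset F, ∃ v : α → M, ∀ S ∈ G, (fun x => f (v x)) ∈ S.1 := by
    intro G
    obtain ⟨v, hv⟩ := hfin G
    have hd : Mdef f {v : α → N | ∀ S : G, v ∈ S.1.1} :=
      Mdef.all (fun S : G => hF S.1.1 S.1.2)
    obtain ⟨w, hw⟩ := hd.point (v₀ := v) (fun S => hv S.1 S.2)
    exact ⟨w, fun S hS => hw ⟨S, hS⟩⟩
  choose v hv using hpt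
  let u : Ultrafilter (Finset F) := Ultrafilter.of Filter.atTop
  have hu : ∀ S : F, ∀ᶠ G in (u : Filter (Finset F)), S ∈ G := by
    intro S
    have h1 : (u : Filter (Finset F)) ≤ Filter.atTop := Ultrafilter.of_le _
    refine h1 ?_
    filter_upwards [Filter.eventually_ge_atTop ({S} : Finset F)] with G hG
    exact hG (Finset.mem_singleton_self S)
  obtain ⟨b, hb⟩ := HN.general ((u : Filter (Finset F)).Product (fun _ => M)) (diag u)
    (fun x => ((fun G => v G x : Finset F → M) :
      (u : Filter (Finset F)).Product (fun _ => M)))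
  refine ⟨b, fun S hS => ?_⟩
  obtain ⟨ψ, hψ⟩ := hF S hS
  rw [hψ, ← hb]
  have key := Ultraproduct.realize_formula_cast (u := u) ψ
    (Sum.elim (fun (x : α) (G : Finset F) => v G x) (fun (m : M) (_ : Finset F) => m))
  have h2 : (fun i : α ⊕ M => (((Sum.elim (fun (x : α) (G : Finset F) => v G x)
      (fun (m : M) (_ : Finset F) => m)) i : Finset F → M) :
      (u : Filter (Finset F)).Product (fun _ => M))) =
      Sum.elim (fun x => ((fun G => v G x : Finset F → M) :
      (u : Filter (Finset F)).Product (fun _ => M))) (diag (L := L) u) := by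
    funext x
    rcases x with x | x <;> rfl
  refine ((iff_of_eq (congrArg (fun w => ψ.Realize w) h2.symm)).trans key).2 ?_
  filter_upwards [hu ⟨S, hS⟩] with G hG
  have h3 := (hψ _).1 (hv G ⟨S, hS⟩ hG)
  rw [← f.map_formula]
  convert h3 using 1
  funext x
  rcases x with x | x <;> rfl

end TypesSec

end Helper726LI
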