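import Mathlib
import Pool.Agent.Helper726_LocalInv.Types

set_option autoImplicit false

open FirstOrder FirstOrder.Language

namespace Helper726LI

section NIPSec

variable {L : FirstOrder.Language.{0, 0}} {M N : Type} [L.Structure M] [L.Structure N]
  {f : M ↪ₑ[L] N}

/-- The NIP hypothesis, as in the frozen statement. -/
def NIPHyp (L : FirstOrder.Language.{0, 0}) (M : Type) [L.Structure M] : Prop :=
  ∀ (n m : ℕ) (φ : L.Formula (Fin n ⊕ Fin m)), ∃ K : ℕ, ∀ a : Fin K → Fin n → M,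
        ¬ ∀ J : Finset (Fin K), ∃ b : Fin m → M, ∀ i : Fin K,
          (φ.Realize (Sum.elim (a i) b) ↔ i ∈ J)

/-- `K` points of `N` are shattered by `S`. -/
def Shatters {A B : Type} (S : Set (A ⊕ B → N)) (K : ℕ) : Prop :=
  ∃ a : Fin K × A → N, ∀ ε : Fin K → Bool, ∃ b : B → N, ∀ i : Fin K,
    (Sum.elim (fun x => a (i, x)) b ∈ S ↔ ε i = true)

omit [L.Structure M] [L.Structure N] in
theorem Shatters.mono {A B : Type} {S : Set (A ⊕ B → N)} {K K' : ℕ} (h : Shatters S K')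
    (hK : K ≤ K') : Shatters S K := by
  obtain ⟨a, ha⟩ := h
  refine ⟨fun q => a (Fin.castLE hK q.1, q.2), fun ε => ?_⟩
  obtain ⟨b, hb⟩ := ha (fun j => if h : j.1 < K then ε ⟨j.1, h⟩ else false)
  refine ⟨b, fun i => ?_⟩
  rw [hb (Fin.castLE hK i)]
  simp

theorem Mdef.slice {A B K : Type} {S : Set (A ⊕ B → N)} (hS : Mdef f S) (i : K) :
    Mdef f {v : (K × A) ⊕ B → N | Sum.elim (fun x => v (Sum.inl (i, x)))
      (fun y => v (Sum.inr y)) ∈ S} := by
  refine (hS.comap (Sum.elim (fun x => Sum.inl (i, x)) (fun y => Sum.inr y))).congr fun v => ?_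
  have : (fun x => v ((Sum.elim (fun x => Sum.inl (i, x)) (fun y => Sum.inr y) :
      A ⊕ B → (K × A) ⊕ B) x)) = Sum.elim (fun x => v (Sum.inl (i, x)))
      (fun y => v (Sum.inr y)) := by
    funext x
    rcases x with x | x <;> rfl
  rw [Set.mem_ofPred_eq, Set.mem_ofPred_eq, this]

theorem NIPHyp.not_shatters (h : NIPHyp L M) {A B : Type} [Finite A] [Finite B]
    {S : Set (A ⊕ B → N)} (hS : Mdef f S) : ∃ K : ℕ, ¬ Shatters S K := by
  obtain ⟨ψ, hψ⟩ := hS
  obtain ⟨P, ψ', h'⟩ := exists_finite_support ψ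
  obtain ⟨n, ⟨eA⟩⟩ := Finite.exists_equiv_fin A
  obtain ⟨m, ⟨eB⟩⟩ := Finite.exists_equiv_fin (B ⊕ P)
  obtain ⟨K, hK⟩ := h n m (ψ'.relabel (Sum.elim (Sum.elim (fun x => Sum.inl (eA x))
    (fun y => Sum.inr (eB (Sum.inl y)))) (fun p => Sum.inr (eB (Sum.inr p)))))
  refine ⟨K, ?_⟩
  rintro ⟨a, ha⟩
  have hS : Mdef f S := ⟨ψ, hψ⟩
  -- move the points to `M`
  have hd : Mdef f {v : Fin K × A → N | ∀ ε : Fin K → Bool, v ∈
      {v : Fin K × A → N | ∃ b : B → N, Sum.elim v b ∈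
        {v : (Fin K × A) ⊕ B → N | ∀ i : Fin K, v ∈
          {v : (Fin K × A) ⊕ B → N | v ∈ {v : (Fin K × A) ⊕ B → N |
            Sum.elim (fun x => v (Sum.inl (i, x))) (fun y => v (Sum.inr y)) ∈ S}
              ↔ ε i = true}}}} :=
    Mdef.all fun ε => Mdef.ex (Mdef.all fun i => (hS.slice i).iff_const _)
  obtain ⟨a', ha'⟩ := hd.point (v₀ := a) (fun ε => ha ε)
  refine hK (fun i x => a' (i, eA.symm x)) ?_
  intro J
  classical
  obtain ⟨b, hb⟩ := ha' (fun i => decide (i ∈ J))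
  have hd2 : Mdef f {b : B → N | ∀ i : Fin K, b ∈ {b : B → N | b ∈ {b : B → N |
      (fun z => Sum.elim b f ((Sum.elim (fun x => Sum.inr (a' (i, x))) (fun y => Sum.inl y) :
        A ⊕ B → B ⊕ M) z)) ∈ S} ↔ decide (i ∈ J) = true}} :=
    Mdef.all fun i => (hS.preimage _).iff_const _
  have key : ∀ (i : Fin K) (b : B → N),
      (fun z => Sum.elim b f ((Sum.elim (fun x => Sum.inr (a' (i, x))) (fun y => Sum.inl y) :
        A ⊕ B → B ⊕ M) z)) = Sum.elim (fun x => f (a' (i, x))) b := by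
    intro i b
    funext x
    rcases x with x | x <;> rfl
  obtain ⟨b', hb'⟩ := hd2.point (v₀ := b) (by
    intro i
    simp only [Set.mem_ofPred_eq, key]
    have := hb i
    exact this)
  refine ⟨(Sum.elim b' (fun p => p.1)) ∘ eB.symm, fun i => ?_⟩
  have h3 := hb' i
  simp only [Set.mem_ofPred_eq, key, decide_eq_true_eq] at h3
  rw [← h3, hψ, h', Formula.realize_relabel, ← f.map_formula]
  have : (⇑f ∘ Sum.elim ((fun i x => a' (i, eA.symm x)) i)
      (Sum.elim b' (fun p : P => p.1) ∘ eB.symm) ∘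
      Sum.elim (Sum.elim (fun x => Sum.inl (eA x))
    (fun y => Sum.inr (eB (Sum.inl y)))) (fun p => Sum.inr (eB (Sum.inr p)))) =
      (Sum.elim (Sum.elim (fun x => f (a' (i, x))) fun x => f (b' x)) fun p => f p.1) := by
    funext x
    rcases x with (x | x) | x <;> simp
  rw [this]

/-- A common bound for a finite family of `M`-definable sets. -/
theorem NIPHyp.common_bound (h : NIPHyp L M) {ι A B : Type} [Finite ι] [Finite A] [Finite B]
    {S : ι → Set (A ⊕ B → N)} (hS : ∀ i, Mdef f (S i)) : ∃ K : ℕ, ∀ i, ¬ Shatters (S i) K := by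
  choose K hK using fun i => h.not_shatters (hS i)
  obtain ⟨K', hK'⟩ := Finite.exists_le K
  exact ⟨K', fun i hs => hK i (hs.mono (hK' i))⟩

end NIPSec

section PatSec

variable {L : FirstOrder.Language.{0, 0}} {M N : Type} [L.Structure M] [L.Structure N]
  {f : M ↪ₑ[L] N} {n m : ℕ}

/-- The pattern of the tuple `w`: for all `K`-tuples of its entries, which truth values of
`φ (x; -)` on them are consistent. -/
def pat (φ : L.Formula (Fin n ⊕ Fin m)) (K : ℕ) {I : Type} (w : I × Fin m → N) :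
    Set ((Fin K → I) × (Fin K → Bool)) :=
  {p | ∃ x : Fin n → N, ∀ i : Fin K,
    (φ.Realize (Sum.elim x (fun j => w (p.1 i, j))) ↔ p.2 i = true)}

variable (φ : L.Formula (Fin n ⊕ Fin m)) (K : ℕ)

theorem pat_comap {I I' : Type} (h : I → I') (w : I' × Fin m → N) :
    pat φ K (fun q : I × Fin m => w (h q.1, q.2)) =
      {p | ((fun i => h (p.1 i)), p.2) ∈ pat φ K w} := rfl

theorem Mdef_mem_pat {I : Type} (p : (Fin K → I) × (Fin K → Bool)) :
    Mdef f {w : I × Fin m → N | p ∈ pat φ K w} := by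
  have h1 : Mdef f {w : I × Fin m → N | ∃ x : Fin n → N, Sum.elim w x ∈
      {v : (I × Fin m) ⊕ Fin n → N | ∀ i : Fin K, v ∈ {v : (I × Fin m) ⊕ Fin n → N |
        v ∈ {v : (I × Fin m) ⊕ Fin n → N | φ.Realize (fun z => Sum.elim v f
          ((Sum.elim (fun x => Sum.inl (Sum.inr x)) (fun j => Sum.inl (Sum.inl (p.1 i, j))) :
            Fin n ⊕ Fin m → ((I × Fin m) ⊕ Fin n) ⊕ M) z))} ↔ p.2 i = true}}} :=
    Mdef.ex (Mdef.all fun i => (Mdef.formula f φ _).iff_const _)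
  refine h1.congr fun w => ?_
  simp only [Set.mem_ofPred_eq, pat]
  refine exists_congr fun x => forall_congr' fun i => ?_
  have : (fun z => Sum.elim (Sum.elim w x) f
          ((Sum.elim (fun x => Sum.inl (Sum.inr x)) (fun j => Sum.inl (Sum.inl (p.1 i, j))) :
            Fin n ⊕ Fin m → ((I × Fin m) ⊕ Fin n) ⊕ M) z)) =
          Sum.elim x (fun j => w (p.1 i, j)) := by
    funext z
    rcases z with z | z <;> rfl
  rw [this]

theorem Mdef_pat_eq {I : Type} [Finite I] (t : Set ((Fin K → I) × (Fin K → Bool))) :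
    Mdef f {w : I × Fin m → N | pat φ K w = t} := by
  have h1 : Mdef f {w : I × Fin m → N | ∀ p : (Fin K → I) × (Fin K → Bool),
      w ∈ {w : I × Fin m → N | w ∈ {w : I × Fin m → N | p ∈ pat φ K w} ↔ p ∈ t}} :=
    Mdef.all fun p => (Mdef_mem_pat φ K p).iff_const _
  refine h1.congr fun w => ?_
  simp only [Set.mem_ofPred_eq]
  exact Set.ext_iff.symm

theorem Mdef_pat_mem {I : Type} [Finite I] (T : Set (Set ((Fin K → I) × (Fin K → Bool)))) :
    Mdef f {w : I × Fin m → N | pat φ K w ∈ T} := by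
  have h1 : Mdef f {w : I × Fin m → N | ∃ t : T,
      w ∈ {w : I × Fin m → N | pat φ K w = t.1}} :=
    Mdef.any fun t => Mdef_pat_eq φ K t.1
  refine h1.congr fun w => ?_
  simp only [Set.mem_ofPred_eq]
  constructor
  · rintro ⟨t, ht⟩
    rw [ht]
    exact t.2
  · intro h
    exact ⟨⟨_, h⟩, rfl⟩

/-- The set of patterns over `u` which are compatible with all sign choices of `B`. -/
def TT (f : M ↪ₑ[L] N) {k : ℕ} {J : Type} (B : Fin k → Bool → Fin m → N)
    (u : J × Fin m → N) : Set (Set ((Fin K → Fin k ⊕ J) × (Fin K → Bool))) :=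
  {t | ∀ ε : Fin k → Bool, ∃ w : (Fin k ⊕ J) × Fin m → N,
    (∀ i, tpEq f (fun j => w (Sum.inl i, j)) (B i (ε i))) ∧
    tpEq f (fun q : J × Fin m => w (Sum.inr q.1, q.2)) u ∧ pat φ K w = t}

theorem tpEq_of_imp {α : Type} {v v' : α → N}
    (h : ∀ S : Set (α → N), Mdef f S → v' ∈ S → v ∈ S) : tpEq f v v' := by
  intro S hS
  refine ⟨fun hv => ?_, h S hS⟩
  by_contra hv'
  exact h _ hS.compl hv' hv

theorem TT_open [Nonempty M] (HN : RealizesTypes f) {k : ℕ} {J : Type} [Finite J]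
    (B : Fin k → Bool → Fin m → N) (u : J × Fin m → N)
    {t : Set ((Fin K → Fin k ⊕ J) × (Fin K → Bool))} (ht : t ∉ TT φ K f B u) :
    ∃ S : Set (J × Fin m → N), Mdef f S ∧ u ∈ S ∧ ∀ u₂ ∈ S, t ∉ TT φ K f B u₂ := by
  by_contra hcon
  apply ht
  intro ε
  let F : Set (Set ((Fin k ⊕ J) × Fin m → N)) :=
    {R | ∃ (A : Fin k → Set (Fin m → N)) (C : Set (J × Fin m → N)),
      (∀ i, Mdef f (A i) ∧ B i (ε i) ∈ A i) ∧ Mdef f C ∧ u ∈ C ∧
      R = {w | (∀ i, (fun j => w (Sum.inl i, j)) ∈ A i) ∧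
        (fun q : J × Fin m => w (Sum.inr q.1, q.2)) ∈ C ∧ pat φ K w = t}}
  have hFdef : ∀ S ∈ F, Mdef f S := by
    rintro S ⟨A, C, hA, hC, huC, rfl⟩
    have h1 : Mdef f {w : (Fin k ⊕ J) × Fin m → N | ∀ i : Fin k, w ∈
        {w : (Fin k ⊕ J) × Fin m → N | (fun j => w (Sum.inl i, j)) ∈ A i}} :=
      Mdef.all fun i => (hA i).1.comap (fun j => (Sum.inl i, j))
    have h2 : Mdef f {w : (Fin k ⊕ J) × Fin m → N |
        (fun q : J × Fin m => w (Sum.inr q.1, q.2)) ∈ C} :=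
      hC.comap (fun q : J × Fin m => (Sum.inr q.1, q.2))
    exact h1.and (h2.and (Mdef_pat_eq φ K t))
  have hfin : ∀ G : Finset F, ∃ v : (Fin k ⊕ J) × Fin m → N, ∀ S ∈ G, v ∈ S.1 := by
    intro G
    choose A C hA hC huC hR using fun S : F => S.2
    have hd : Mdef f {v : J × Fin m → N | ∀ S : G, v ∈ C S.1} := Mdef.all fun S => hC S.1
    have h2 : ∃ u₂ ∈ {v : J × Fin m → N | ∀ S : G, v ∈ C S.1}, t ∈ TT φ K f B u₂ := by
      by_contra hno
      exact hcon ⟨_, hd, fun S => huC S.1, fun u₂ hu₂ h => hno ⟨u₂, hu₂, h⟩⟩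
    obtain ⟨u₂, hu₂, ht₂⟩ := h2
    obtain ⟨w, hw1, hw2, hw3⟩ := ht₂ ε
    refine ⟨w, fun S hS => ?_⟩
    rw [hR S]
    refine ⟨fun i => ?_, ?_, hw3⟩
    · exact (hw1 i _ (hA S i).1).2 (hA S i).2
    · exact (hw2 _ (hC S)).2 (hu₂ ⟨S, hS⟩)
  obtain ⟨w, hw⟩ := compactness HN F hFdef hfin
  have huniv : ∀ {α : Type}, Mdef f (Set.univ : Set (α → N)) := fun {α} =>
    (Mdef.const (α := α) True).congr fun v => by simp
  refine ⟨w, fun i => ?_, ?_, ?_⟩
  · refine tpEq_of_imp fun S hS hB => ?_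
    have := hw {w | (∀ i', (fun j => w (Sum.inl i', j)) ∈ {v : Fin m → N | i' = i → v ∈ S}) ∧
        (fun q : J × Fin m => w (Sum.inr q.1, q.2)) ∈ (Set.univ : Set (J × Fin m → N)) ∧
        pat φ K w = t} ⟨fun i' => {v : Fin m → N | i' = i → v ∈ S}, Set.univ, ?_, huniv,
          Set.mem_univ _, rfl⟩
    · exact this.1 i rfl
    · intro i'
      by_cases hi : i' = i
      · subst hi
        refine ⟨hS.congr fun v => by simp, fun _ => hB⟩
      · refine ⟨huniv.congr fun v => by simp [hi], fun h => absurd h hi⟩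
  · refine tpEq_of_imp fun S hS hB => ?_
    have := hw {w | (∀ i', (fun j => w (Sum.inl i', j)) ∈ (Set.univ : Set (Fin m → N))) ∧
        (fun q : J × Fin m => w (Sum.inr q.1, q.2)) ∈ S ∧
        pat φ K w = t} ⟨fun i' => Set.univ, S, fun i' => ⟨huniv, Set.mem_univ _⟩, hS,
          hB, rfl⟩
    exact this.2.1
  · have := hw {w | (∀ i', (fun j => w (Sum.inl i', j)) ∈ (Set.univ : Set (Fin m → N))) ∧
        (fun q : J × Fin m => w (Sum.inr q.1, q.2)) ∈ (Set.univ : Set (J × Fin m → N)) ∧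
        pat φ K w = t} ⟨fun i' => Set.univ, Set.univ, fun i' => ⟨huniv, Set.mem_univ _⟩, huniv,
          Set.mem_univ _, rfl⟩
    exact this.2.2

/-- Openness, for a set of patterns. -/
theorem TT_open_set [Nonempty M] (HN : RealizesTypes f) {k : ℕ} {J : Type} [Finite J]
    (B : Fin k → Bool → Fin m → N) (u : J × Fin m → N)
    (D : Set (Set ((Fin K → Fin k ⊕ J) × (Fin K → Bool))))
    (hD : ∀ t ∈ D, t ∉ TT φ K f B u) :
    ∃ S : Set (J × Fin m → N), Mdef f S ∧ u ∈ S ∧ ∀ u₂ ∈ S, ∀ t ∈ D, t ∉ TT φ K f B u₂ := by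
  choose S hS huS hT using fun t : D => TT_open φ K HN B u (hD t.1 t.2)
  exact ⟨{v | ∀ t : D, v ∈ S t}, Mdef.all hS, fun t => huS t,
    fun u₂ hu₂ t ht => hT ⟨t, ht⟩ u₂ (hu₂ ⟨t, ht⟩)⟩

end PatSec

end Helper726LI
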