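import Mathlib
import Pool.Agent.Helper726_LocalInv.Patterns

set_option autoImplicit false

open FirstOrder FirstOrder.Language

namespace Helper726LI

section BlocksSec

variable {L : FirstOrder.Language.{0, 0}} {M N : Type} [L.Structure M] [L.Structure N]
  {f : M ↪ₑ[L] N}

/-- Every finite family of formulas over `M` fails to separate `O true` from `O false`. -/
def NonLocal (f : M ↪ₑ[L] N) {W : Type} (O : Bool → Set (W → N)) : Prop :=
  ∀ (Λ Z : Type) [Finite Λ] [Finite Z] (ψ : Λ → L.Formula (W ⊕ Z)),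
    ∃ wp ∈ O true, ∃ wm ∈ O false, ∀ (l : Λ) (z : Z → M),
      ((ψ l).Realize (Sum.elim wp (fun i => f (z i))) ↔
        (ψ l).Realize (Sum.elim wm (fun i => f (z i))))

theorem NonLocal.sets {W : Type} {O : Bool → Set (W → N)} (h : NonLocal f O)
    {Λ Z : Type} [Finite Λ] [Finite Z] (R : Λ → Set (W ⊕ Z → N)) (hR : ∀ l, Mdef f (R l)) :
    ∃ wp ∈ O true, ∃ wm ∈ O false, ∀ (l : Λ) (z : Z → M),
      (Sum.elim wp (fun i => f (z i)) ∈ R l ↔ Sum.elim wm (fun i => f (z i)) ∈ R l) := by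
  choose ψ hψ using hR
  obtain ⟨P, ψ', h'⟩ := exists_support_of_family ψ
  obtain ⟨wp, hwp, wm, hwm, hh⟩ := h Λ (Z ⊕ P)
    (fun l => (ψ' l).relabel (Equiv.sumAssoc W Z P))
  refine ⟨wp, hwp, wm, hwm, fun l z => ?_⟩
  have key : ∀ v : W → N, (Sum.elim v (fun i => f (z i)) ∈ R l ↔
      ((ψ' l).relabel (Equiv.sumAssoc W Z P)).Realize
        (Sum.elim v (fun i => f ((Sum.elim z (fun p => p.1) : Z ⊕ P → M) i)))) := by
    intro v
    rw [hψ, h', Formula.realize_relabel]
    have : Sum.elim (Sum.elim v fun i => f (z i)) (fun p : P => f p.1) =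
        (Sum.elim v fun i => f ((Sum.elim z (fun p => p.1) : Z ⊕ P → M) i)) ∘
          (Equiv.sumAssoc W Z P) := by
      funext x
      rcases x with (x | x) | x <;> rfl
    rw [this]
  rw [key, key]
  exact hh l _

/-- The block lemma: for `n'` blocks of variables, one can choose `M`-definable boxes inside
`O true`, `O false` such that, over every parameter from `M`, some colour is attained in every
box product. -/
theorem blocks {W : Type} [Finite W] {O : Bool → Set (W → N)}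
    (hopen : ∀ σ, ∀ w ∈ O σ, ∃ S, Mdef f S ∧ w ∈ S ∧ S ⊆ O σ) (hNL : NonLocal f O) :
    ∀ (n' : ℕ) (Z Λ : Type) [Finite Z] [Finite Λ] (F : Λ → Set ((Fin n' × W) ⊕ Z → N))
      (_hF : ∀ l, Mdef f (F l)),
      ∃ Θ : Fin n' → Bool → Set (W → N), (∀ j σ, Mdef f (Θ j σ) ∧ Θ j σ ⊆ O σ) ∧
        ∀ z : Z → M, ∃ τ : Set Λ, ∀ ε : Fin n' → Bool, ∃ w : Fin n' × W → M,
          (∀ j, (fun i => f (w (j, i))) ∈ Θ j (ε j)) ∧
          ∀ l, (Sum.elim (fun q => f (w q)) (fun i => f (z i)) ∈ F l ↔ l ∈ τ) := by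
  intro n'
  induction n' with
  | zero =>
    intro Z Λ _ _ F hF
    refine ⟨fun j => j.elim0, fun j => j.elim0, fun z => ?_⟩
    refine ⟨{l | Sum.elim (fun q : Fin 0 × W => f ((fun q => q.1.elim0 : Fin 0 × W → M) q))
      (fun i => f (z i)) ∈ F l}, fun ε => ⟨fun q => q.1.elim0, fun j => j.elim0, fun l => ?_⟩⟩
    exact Iff.rfl
  | succ n' ih =>
    intro Z Λ _ _ F hF
    -- regroup the variables: the last block becomes a parameter
    let reg : (Fin (n' + 1) × W) ⊕ Z → (Fin n' × W) ⊕ (W ⊕ Z) := Sum.elim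
      (fun q => Fin.lastCases (motive := fun _ => (Fin n' × W) ⊕ (W ⊕ Z))
        (Sum.inr (Sum.inl q.2)) (fun j => Sum.inl (j, q.2)) q.1)
      (fun ζ => Sum.inr (Sum.inr ζ))
    have hF' : ∀ l, Mdef f {v : (Fin n' × W) ⊕ (W ⊕ Z) → N | (fun x => v (reg x)) ∈ F l} :=
      fun l => (hF l).comap reg
    obtain ⟨Θ, hΘ, hcol⟩ := ih (W ⊕ Z) Λ
      (fun l => {v : (Fin n' × W) ⊕ (W ⊕ Z) → N | (fun x => v (reg x)) ∈ F l}) hF'
    -- the relation R τ
    let C : Set Λ → (Fin n' → Bool) → Set ((Fin n' × W) ⊕ (W ⊕ Z) → N) := fun τ ε =>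
      {v | (∀ j : Fin n', v ∈ {v : (Fin n' × W) ⊕ (W ⊕ Z) → N |
          (fun i => v (Sum.inl (j, i))) ∈ Θ j (ε j)}) ∧
        (∀ l : Λ, v ∈ {v : (Fin n' × W) ⊕ (W ⊕ Z) → N | v ∈
          {v : (Fin n' × W) ⊕ (W ⊕ Z) → N | (fun x => v (reg x)) ∈ F l} ↔ l ∈ τ})}
    have hC : ∀ τ ε, Mdef f (C τ ε) := by
      intro τ ε
      have h1 : Mdef f {v : (Fin n' × W) ⊕ (W ⊕ Z) → N | ∀ j : Fin n', v ∈
          {v : (Fin n' × W) ⊕ (W ⊕ Z) → N | (fun i => v (Sum.inl (j, i))) ∈ Θ j (ε j)}} :=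
        Mdef.all fun j => (hΘ j (ε j)).1.comap (fun i => Sum.inl (j, i))
      have h2 : Mdef f {v : (Fin n' × W) ⊕ (W ⊕ Z) → N | ∀ l : Λ, v ∈
          {v : (Fin n' × W) ⊕ (W ⊕ Z) → N | v ∈
          {v : (Fin n' × W) ⊕ (W ⊕ Z) → N | (fun x => v (reg x)) ∈ F l} ↔ l ∈ τ}} :=
        Mdef.all fun l => (hF' l).iff_const _
      exact h1.and h2
    let R : Set Λ → Set (W ⊕ Z → N) := fun τ =>
      {v | ∀ ε : Fin n' → Bool, v ∈ {v : W ⊕ Z → N | ∃ w : Fin n' × W → N,
        Sum.elim v w ∈ {v : (W ⊕ Z) ⊕ (Fin n' × W) → N | (fun x => v (Sum.swap x)) ∈ C τ ε}}}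
    have hR : ∀ τ, Mdef f (R τ) := fun τ =>
      Mdef.all fun ε => Mdef.ex ((hC τ ε).comap Sum.swap)
    have hsw : ∀ (v : W ⊕ Z → N) (w : Fin n' × W → N),
        (fun x => (Sum.elim v w : (W ⊕ Z) ⊕ (Fin n' × W) → N) (Sum.swap x)) =
          Sum.elim w v := by
      intro v w
      funext x
      rcases x with x | x <;> rfl
    have hRiff : ∀ τ v, v ∈ R τ ↔ ∀ ε : Fin n' → Bool, ∃ w : Fin n' × W → N,
        Sum.elim w v ∈ C τ ε := by
      intro τ v
      simp only [R, Set.mem_ofPred_eq, hsw]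
    -- every parameter has a colour
    have hRall : ∀ v : W ⊕ Z → N, ∃ τ, v ∈ R τ := by
      intro v
      by_contra hv
      have hd : Mdef f {v : W ⊕ Z → N | v ∉ {v : W ⊕ Z → N | ∃ τ, v ∈ R τ}} :=
        (Mdef.any hR).compl
      obtain ⟨v', hv'⟩ := hd.point (v₀ := v) hv
      apply hv'
      obtain ⟨τ, hτ⟩ := hcol v'
      refine ⟨τ, ?_⟩
      rw [hRiff]
      intro ε
      obtain ⟨w, hw1, hw2⟩ := hτ ε
      exact ⟨fun q => f (w q), hw1, hw2⟩
    obtain ⟨wp, hwp, wm, hwm, hwR⟩ := hNL.sets R hR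
    obtain ⟨Sp, hSp, hwSp, hSpO⟩ := hopen true wp hwp
    obtain ⟨Sm, hSm, hwSm, hSmO⟩ := hopen false wm hwm
    refine ⟨Fin.snoc (α := fun _ => Bool → Set (W → N)) Θ (fun σ => if σ then Sp else Sm),
      ?_, ?_⟩
    · intro j
      refine Fin.lastCases ?_ (fun j => ?_) j
      · intro σ
        rw [Fin.snoc_last]
        cases σ
        · exact ⟨hSm, hSmO⟩
        · exact ⟨hSp, hSpO⟩
      · intro σ
        rw [Fin.snoc_castSucc]
        exact hΘ j σ
    · intro z
      obtain ⟨τ, hτ⟩ := hRall (Sum.elim wp (fun i => f (z i)))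
      have hτ' : Sum.elim wm (fun i => f (z i)) ∈ R τ := (hwR τ z).1 hτ
      refine ⟨τ, fun ε => ?_⟩
      -- choose the last block in M
      obtain ⟨wl, hwl1, hwl2⟩ : ∃ wl : W → M,
          (fun i => f (wl i)) ∈ (if ε (Fin.last n') then Sp else Sm) ∧
          Sum.elim (fun i => f (wl i)) (fun i => f (z i)) ∈ R τ := by
        have hkey : ∀ v : W → N, (fun x => Sum.elim v f ((Sum.elim Sum.inl
            (fun ζ => Sum.inr (z ζ)) : W ⊕ Z → W ⊕ M) x)) = Sum.elim v (fun i => f (z i)) := by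
          intro v
          funext x
          rcases x with x | x <;> rfl
        have hd : ∀ S : Set (W → N), Mdef f S → Mdef f {v : W → N | v ∈ S ∧ v ∈
            {v : W → N | (fun x => Sum.elim v f ((Sum.elim Sum.inl
            (fun ζ => Sum.inr (z ζ)) : W ⊕ Z → W ⊕ M) x)) ∈ R τ}} :=
          fun S hS => hS.and ((hR τ).preimage _)
        cases hε : ε (Fin.last n') with
        | true =>
          obtain ⟨wl, hwl⟩ := (hd Sp hSp).point (v₀ := wp) (by
            refine ⟨hwSp, ?_⟩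
            rw [Set.mem_ofPred_eq, hkey]
            exact hτ)
          refine ⟨wl, hwl.1, ?_⟩
          have := hwl.2
          rw [Set.mem_ofPred_eq, hkey] at this
          exact this
        | false =>
          obtain ⟨wl, hwl⟩ := (hd Sm hSm).point (v₀ := wm) (by
            refine ⟨hwSm, ?_⟩
            rw [Set.mem_ofPred_eq, hkey]
            exact hτ')
          refine ⟨wl, hwl.1, ?_⟩
          have := hwl.2
          rw [Set.mem_ofPred_eq, hkey] at this
          exact this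
      rw [hRiff] at hwl2
      obtain ⟨w₀, hw₀⟩ := hwl2 (fun j => ε j.castSucc)
      -- choose the other blocks in M
      have hkey2 : ∀ v : Fin n' × W → N, (fun x => Sum.elim v f ((Sum.elim Sum.inl
          (Sum.elim (fun i => Sum.inr (wl i)) (fun ζ => Sum.inr (z ζ))) :
            (Fin n' × W) ⊕ (W ⊕ Z) → (Fin n' × W) ⊕ M) x)) =
            Sum.elim v (Sum.elim (fun i => f (wl i)) (fun i => f (z i))) := by
        intro v
        funext x
        rcases x with x | x | x <;> rfl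
      obtain ⟨w, hw⟩ := ((hC τ (fun j => ε j.castSucc)).preimage (Sum.elim Sum.inl
          (Sum.elim (fun i => Sum.inr (wl i)) (fun ζ => Sum.inr (z ζ))) :
            (Fin n' × W) ⊕ (W ⊕ Z) → (Fin n' × W) ⊕ M)).point (v₀ := w₀) (by
            rw [Set.mem_ofPred_eq, hkey2]
            exact hw₀)
      rw [Set.mem_ofPred_eq, hkey2] at hw
      refine ⟨fun q => Fin.lastCases (motive := fun _ => M) (wl q.2)
        (fun j => w (j, q.2)) q.1, ?_, ?_⟩
      · intro j
        refine Fin.lastCases ?_ (fun j => ?_) j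
        · rw [Fin.snoc_last]
          simp only [Fin.lastCases_last]
          exact hwl1
        · rw [Fin.snoc_castSucc]
          simp only [Fin.lastCases_castSucc]
          exact hw.1 j
      · intro l
        have h4 := hw.2 l
        simp only [Set.mem_ofPred_eq] at h4
        rw [← h4]
        have : (Sum.elim (fun q : Fin (n' + 1) × W => f (Fin.lastCases (motive := fun _ => M)
            (wl q.2) (fun j => w (j, q.2)) q.1)) (fun i => f (z i))) =
            (fun x => (Sum.elim (fun x => f (w x)) (Sum.elim (fun i => f (wl i))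
              fun i => f (z i)) : (Fin n' × W) ⊕ (W ⊕ Z) → N) (reg x)) := by
          funext x
          rcases x with ⟨j, x⟩ | x
          · refine Fin.lastCases ?_ (fun j => ?_) j
            · simp [reg]
            · simp [reg]
          · rfl
        rw [this]

end BlocksSec

end Helper726LI
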