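import Mathlib
import Pool.Agent.Helper726_LocalInv.Blocks

set_option autoImplicit false

open FirstOrder FirstOrder.Language

namespace Helper726LI

section MainSec

variable {L : FirstOrder.Language.{0, 0}} {M N : Type} [L.Structure M] [L.Structure N]
  {n m : ℕ}

/-- `(b, e)` as one tuple, indexed by `Option J`. -/
def opt {X J : Type} (b : Fin m → X) (e : J × Fin m → X) : Option J × Fin m → X :=
  fun q => Option.elim q.1 (b q.2) (fun j => e (j, q.2))

/-- The inductive statement: sign choices `B` of length `k`, compatible with patterns over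
every tuple of `M` indexed by `J`. -/
def QQ (f : M ↪ₑ[L] N) (φ : L.Formula (Fin n ⊕ Fin m)) (K : ℕ) (Φ : (Fin m → N) → Prop)
    (k : ℕ) (J : Type) : Prop :=
  ∃ B : Fin k → Bool → Fin m → N, (∀ i, Φ (B i true) ∧ ¬ Φ (B i false)) ∧
    ∀ u : J × Fin m → M, ∃ t, t ∈ TT φ K f B (fun q => f (u q))

variable {f : M ↪ₑ[L] N}

theorem QQ_zero (φ : L.Formula (Fin n ⊕ Fin m)) (K : ℕ) (Φ : (Fin m → N) → Prop)
    (J : Type) : QQ f φ K Φ 0 J := by
  refine ⟨fun i => i.elim0, fun i => i.elim0, fun u => ?_⟩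
  refine ⟨pat φ K (fun q : (Fin 0 ⊕ J) × Fin m => Sum.elim (fun i : Fin 0 => i.elim0)
    (fun j => f (u (j, q.2))) q.1), fun ε => ⟨_, fun i => i.elim0, ?_, rfl⟩⟩
  exact tpEq.refl _

theorem not_QQ_top {φ : L.Formula (Fin n ⊕ Fin m)} {K : ℕ}
    (hK : ¬ Shatters {v : Fin m ⊕ Fin n → N |
      φ.Realize (Sum.elim (fun x => v (Sum.inr x)) (fun y => v (Sum.inl y)))} K)
    {Φ : (Fin m → N) → Prop} (hinv : ∀ b b', tpEq f b b' → (Φ b ↔ Φ b'))
    (hcons : ∀ (K : ℕ) (w : Fin K → Fin m → N), ∃ x : Fin n → N, ∀ i,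
      (φ.Realize (Sum.elim x (w i)) ↔ Φ (w i))) :
    ¬ QQ f φ K Φ K Empty := by
  rintro ⟨B, hB, hT⟩
  obtain ⟨t, ht⟩ := hT (fun q => q.1.elim)
  -- every sign vector occurs in `t`
  have hall : ∀ ε : Fin K → Bool, ((fun i => (Sum.inl i : Fin K ⊕ Empty)), ε) ∈ t := by
    intro ε
    obtain ⟨w, hw1, -, hw3⟩ := ht ε
    rw [← hw3]
    obtain ⟨x, hx⟩ := hcons K (fun i j => w (Sum.inl i, j))
    refine ⟨x, fun i => ?_⟩
    have h1 := hx i
    have h2 := hinv _ _ (hw1 i)
    simp only at h1 ⊢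
    rw [h1, h2]
    cases hε : ε i with
    | true => simp [(hB i).1]
    | false => simp [(hB i).2]
  obtain ⟨w, -, -, hw3⟩ := ht (fun _ => true)
  apply hK
  refine ⟨fun q => w (Sum.inl q.1, q.2), fun ε => ?_⟩
  have := hall ε
  rw [← hw3] at this
  obtain ⟨x, hx⟩ := this
  refine ⟨x, fun i => ?_⟩
  exact hx i

/-- Separation: if the statement fails at `k + 1`, then for a good `B` of length `k` and points
`bp`, `bm` on the two sides of `Φ`, the patterns over some tuple of `M` are disjoint. -/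
theorem separation {φ : L.Formula (Fin n ⊕ Fin m)} {K : ℕ} {Φ : (Fin m → N) → Prop} {k : ℕ}
    {J : Type} (hQ : ¬ QQ f φ K Φ (k + 1) J) {B : Fin k → Bool → Fin m → N}
    (hB : ∀ i, Φ (B i true) ∧ ¬ Φ (B i false)) {bp bm : Fin m → N} (hp : Φ bp)
    (hm : ¬ Φ bm) :
    ∃ e : J × Fin m → M, ∀ t, t ∈ TT φ K f B (opt bp (fun q => f (e q))) →
      t ∉ TT φ K f B (opt bm (fun q => f (e q))) := by
  by_contra hcon
  apply hQ
  refine ⟨Fin.snoc (α := fun _ => Bool → Fin m → N) B (fun σ => if σ then bp else bm),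
    ?_, ?_⟩
  · intro i
    refine Fin.lastCases ?_ (fun i => ?_) i
    · rw [Fin.snoc_last]
      exact ⟨by simpa using hp, by simpa using hm⟩
    · rw [Fin.snoc_castSucc]
      exact hB i
  intro u
  obtain ⟨t, ht1, ht2⟩ : ∃ t, t ∈ TT φ K f B (opt bp (fun q => f (u q))) ∧
      t ∈ TT φ K f B (opt bm (fun q => f (u q))) := by
    by_contra hno
    exact hcon ⟨u, fun t h1 h2 => hno ⟨t, h1, h2⟩⟩
  have hσ : ∀ σ : Bool, t ∈ TT φ K f B (opt (if σ then bp else bm) (fun q => f (u q))) := by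
    intro σ
    cases σ
    · exact ht2
    · exact ht1
  let r : Fin (k + 1) ⊕ J → Fin k ⊕ Option J := Sum.elim
    (fun i => Fin.lastCases (motive := fun _ => Fin k ⊕ Option J) (Sum.inr none)
      (fun i => Sum.inl i) i) (fun j => Sum.inr (some j))
  refine ⟨{p | ((fun i => r (p.1 i)), p.2) ∈ t}, fun ε => ?_⟩
  obtain ⟨w, hw1, hw2, hw3⟩ := hσ (ε (Fin.last k)) (fun i => ε i.castSucc)
  refine ⟨fun q => w (r q.1, q.2), ?_, ?_, ?_⟩
  · intro i
    refine Fin.lastCases ?_ (fun i => ?_) i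
    · rw [Fin.snoc_last]
      have h1 := hw2.comap (fun j : Fin m => ((none, j) : Option J × Fin m))
      simp only [r, Sum.elim_inl, Fin.lastCases_last]
      exact h1
    · rw [Fin.snoc_castSucc]
      simp only [r, Sum.elim_inl, Fin.lastCases_castSucc]
      exact hw1 i
  · exact hw2.comap (fun q : J × Fin m => ((some q.1, q.2) : Option J × Fin m))
  · rw [pat_comap, hw3]

/-- The two open sets attached to a set of patterns. -/
def OO (f : M ↪ₑ[L] N) (φ : L.Formula (Fin n ⊕ Fin m)) (K : ℕ) {k : ℕ} {J : Type}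
    (B : Fin k → Bool → Fin m → N) (T : Set (Set ((Fin K → Fin k ⊕ J) × (Fin K → Bool))))
    (σ : Bool) : Set (J × Fin m → N) :=
  {w | ∀ t ∈ TT φ K f B w, (t ∈ T ↔ σ = true)}

theorem OO_open [Nonempty M] (HN : RealizesTypes f) (φ : L.Formula (Fin n ⊕ Fin m)) (K : ℕ)
    {k : ℕ} {J : Type} [Finite J]
    (B : Fin k → Bool → Fin m → N) (T : Set (Set ((Fin K → Fin k ⊕ J) × (Fin K → Bool)))) :
    ∀ σ, ∀ w ∈ OO f φ K B T σ, ∃ S, Mdef f S ∧ w ∈ S ∧ S ⊆ OO f φ K B T σ := by
  intro σ w hw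
  obtain ⟨S, hS, hwS, hST⟩ := TT_open_set φ K HN B w {t | ¬ (t ∈ T ↔ σ = true)}
    (fun t ht h => ht (hw t h))
  refine ⟨S, hS, hwS, fun w₂ hw₂ t ht => ?_⟩
  by_contra hcon
  exact hST w₂ hw₂ t hcon ht

theorem main_local [Nonempty M] (hNIP : NIPHyp L M) (HN : RealizesTypes f)
    (φ : L.Formula (Fin n ⊕ Fin m)) (Φ : (Fin m → N) → Prop)
    (hinv : ∀ b b', tpEq f b b' → (Φ b ↔ Φ b'))
    (hcons : ∀ (K : ℕ) (w : Fin K → Fin m → N), ∃ x : Fin n → N, ∀ i,
      (φ.Realize (Sum.elim x (w i)) ↔ Φ (w i))) :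
    ∃ (Λ Z : Type) (_ : Finite Λ) (_ : Finite Z) (ψ : Λ → L.Formula (Fin m ⊕ Z)),
      ∀ b b' : Fin m → N, (∀ (l : Λ) (z : Z → M),
        ((ψ l).Realize (Sum.elim b (fun i => f (z i))) ↔
          (ψ l).Realize (Sum.elim b' (fun i => f (z i))))) → (Φ b ↔ Φ b') := by
  by_contra hnl
  -- the NIP bound for `φ`
  have hSdef : Mdef f {v : Fin m ⊕ Fin n → N |
      φ.Realize (Sum.elim (fun x => v (Sum.inr x)) (fun y => v (Sum.inl y)))} := by
    refine (Mdef.formula f φ (Sum.elim (fun x => Sum.inl (Sum.inr x))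
      (fun y => Sum.inl (Sum.inl y)))).congr fun v => ?_
    simp only [Set.mem_ofPred_eq]
    have : (fun z => Sum.elim v f ((Sum.elim (fun x => Sum.inl (Sum.inr x))
      (fun y => Sum.inl (Sum.inl y)) : Fin n ⊕ Fin m → (Fin m ⊕ Fin n) ⊕ M) z)) =
      Sum.elim (fun x => v (Sum.inr x)) (fun y => v (Sum.inl y)) := by
      funext z
      rcases z with z | z <;> rfl
    rw [this]
  obtain ⟨K, hK⟩ := hNIP.not_shatters hSdef
  -- the largest good `k`
  obtain ⟨k, hgood, hbad⟩ : ∃ k, (∀ (J : Type) [Finite J], QQ f φ K Φ k J) ∧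
      ¬ (∀ (J : Type) [Finite J], QQ f φ K Φ (k + 1) J) := by
    by_contra hno
    have hallk : ∀ k, ∀ (J : Type) [Finite J], QQ f φ K Φ k J := by
      intro k
      induction k with
      | zero => exact fun J _ => QQ_zero φ K Φ J
      | succ k ih =>
        by_contra hk
        exact hno ⟨k, ih, hk⟩
    exact not_QQ_top hK hinv hcons (hallk K Empty)
  obtain ⟨J₀, hJ₀, hbad⟩ : ∃ (J : Type) (_ : Finite J), ¬ QQ f φ K Φ (k + 1) J := by
    by_contra hno
    exact hbad fun J hJ => by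
      by_contra hQ
      exact hno ⟨J, hJ, hQ⟩
  -- the common bound for the formulas `φ'_T`
  let S' : Set (Set ((Fin K → Fin k ⊕ Option J₀) × (Fin K → Bool))) →
      Set ((Option J₀ × Fin m) ⊕ (Fin k × Fin m) → N) := fun T =>
    {v | (fun q : (Fin k ⊕ Option J₀) × Fin m => v (Sum.elim
      (fun i => (Sum.inr (i, q.2) : (Option J₀ × Fin m) ⊕ (Fin k × Fin m)))
      (fun o => Sum.inl (o, q.2)) q.1)) ∈
        {w : (Fin k ⊕ Option J₀) × Fin m → N | pat φ K w ∈ T}}
  have hS' : ∀ T, Mdef f (S' T) := fun T => (Mdef_pat_mem φ K T).comap _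
  obtain ⟨N', hN'⟩ := hNIP.common_bound hS'
  obtain ⟨B, hB, hBT⟩ := hgood (Fin N' × Option J₀)
  -- pigeonhole
  obtain ⟨T, hT⟩ : ∃ T : Set (Set ((Fin K → Fin k ⊕ Option J₀) × (Fin K → Bool))),
      NonLocal f (OO f φ K B T) := by
    by_contra hno
    have hno' : ∀ T : Set (Set ((Fin K → Fin k ⊕ Option J₀) × (Fin K → Bool))),
        ∃ (Λ Z : Type) (_ : Finite Λ) (_ : Finite Z)
          (ψ : Λ → L.Formula ((Option J₀ × Fin m) ⊕ Z)),
          ∀ wp ∈ OO f φ K B T true, ∀ wm ∈ OO f φ K B T false,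
            ¬ ∀ (l : Λ) (z : Z → M), ((ψ l).Realize (Sum.elim wp (fun i => f (z i))) ↔
              (ψ l).Realize (Sum.elim wm (fun i => f (z i)))) := by
      intro T
      by_contra hTno
      apply hno
      refine ⟨T, fun Λ Z hΛ hZ ψ => ?_⟩
      by_contra hψ
      refine hTno ⟨Λ, Z, hΛ, hZ, ψ, fun wp hwp wm hwm h => hψ ⟨wp, hwp, wm, hwm, h⟩⟩
    choose Λ Z hΛ hZ ψ hψ using hno'
    apply hnl
    refine ⟨Σ T, Λ T, (J₀ × Fin m) ⊕ (Σ T, Z T), inferInstance, inferInstance,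
      fun l => (ψ l.1 l.2).relabel (Sum.elim
        (fun q => Option.elim q.1 (Sum.inl q.2) (fun j => Sum.inr (Sum.inl (j, q.2))))
        (fun ζ => Sum.inr (Sum.inr ⟨l.1, ζ⟩))), ?_⟩
    -- one-sided version
    have hside : ∀ bp bm : Fin m → N, Φ bp → ¬ Φ bm →
        ¬ (∀ (l : Σ T, Λ T) (z : (J₀ × Fin m) ⊕ (Σ T, Z T) → M),
        (((ψ l.1 l.2).relabel (Sum.elim
        (fun q => Option.elim q.1 (Sum.inl q.2) (fun j => Sum.inr (Sum.inl (j, q.2))))
        (fun ζ => Sum.inr (Sum.inr ⟨l.1, ζ⟩)) : (Option J₀ × Fin m) ⊕ Z l.1 →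
          Fin m ⊕ ((J₀ × Fin m) ⊕ (Σ T, Z T)))).Realize
            (Sum.elim bp (fun i => f (z i))) ↔
          ((ψ l.1 l.2).relabel (Sum.elim
        (fun q => Option.elim q.1 (Sum.inl q.2) (fun j => Sum.inr (Sum.inl (j, q.2))))
        (fun ζ => Sum.inr (Sum.inr ⟨l.1, ζ⟩)) : (Option J₀ × Fin m) ⊕ Z l.1 →
          Fin m ⊕ ((J₀ × Fin m) ⊕ (Σ T, Z T)))).Realize
            (Sum.elim bm (fun i => f (z i))))) := by
      intro bp bm hp hm hloc
      obtain ⟨e, he⟩ := separation hbad hB hp hm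
      refine hψ (TT φ K f B (opt bp (fun q => f (e q)))) (opt bp (fun q => f (e q))) ?_
        (opt bm (fun q => f (e q))) ?_ ?_
      · intro t ht
        exact ⟨fun _ => rfl, fun _ => ht⟩
      · intro t ht
        exact ⟨fun h => absurd ht (he t h), fun h => absurd h (by decide)⟩
      · intro l z
        classical
        have h1 := hloc ⟨TT φ K f B (opt bp (fun q => f (e q))), l⟩
          (Sum.elim e (Function.extend
            (Sigma.mk (β := Z) (TT φ K f B (opt bp (fun q => f (e q))))) z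
            (fun _ => Classical.arbitrary M)))
        rw [Formula.realize_relabel, Formula.realize_relabel] at h1
        have key : ∀ b : Fin m → N, (Sum.elim b fun i => f ((Sum.elim e (Function.extend
            (Sigma.mk (β := Z) (TT φ K f B (opt bp (fun q => f (e q))))) z
            (fun _ => Classical.arbitrary M)) : (J₀ × Fin m) ⊕ (Σ T, Z T) → M) i)) ∘
            (Sum.elim
              (fun q : Option J₀ × Fin m => Option.elim q.1 (Sum.inl q.2)
                (fun j => Sum.inr (Sum.inl (j, q.2))))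
              (fun ζ => Sum.inr (Sum.inr ⟨TT φ K f B (opt bp (fun q => f (e q))), ζ⟩))) =
            Sum.elim (opt b (fun q => f (e q))) (fun i => f (z i)) := by
          intro b
          funext x
          rcases x with ⟨o, x⟩ | x
          · cases o <;> rfl
          · simp only [Function.comp_apply, Sum.elim_inr]
            rw [Function.Injective.extend_apply sigma_mk_injective]
        rw [key, key] at h1
        exact h1
    intro b b' hloc
    by_cases hb : Φ b <;> by_cases hb' : Φ b'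
    · exact ⟨fun _ => hb', fun _ => hb⟩
    · exact absurd hloc (hside b b' hb hb')
    · exact absurd (fun l z => (hloc l z).symm) (hside b' b hb' hb)
    · exact ⟨fun h => absurd h hb, fun h => absurd h hb'⟩
  -- the colours: which sign vectors on the `N'` blocks are realized by some `x'`
  let Fcol : (Fin N' → Bool) → Set ((Fin N' × (Option J₀ × Fin m)) ⊕ Empty → N) := fun δ =>
    {v | (fun q => v (Sum.inl q)) ∈ {v : Fin N' × (Option J₀ × Fin m) → N |
      ∃ c : Fin k × Fin m → N, Sum.elim v c ∈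
        {v : (Fin N' × (Option J₀ × Fin m)) ⊕ (Fin k × Fin m) → N | ∀ j : Fin N', v ∈
          {v : (Fin N' × (Option J₀ × Fin m)) ⊕ (Fin k × Fin m) → N | v ∈
            {v : (Fin N' × (Option J₀ × Fin m)) ⊕ (Fin k × Fin m) → N |
              Sum.elim (fun x => v (Sum.inl (j, x))) (fun y => v (Sum.inr y)) ∈ S' T}
              ↔ δ j = true}}}}
  have hFcol : ∀ δ, Mdef f (Fcol δ) := fun δ =>
    (Mdef.ex (Mdef.all fun j => ((hS' T).slice j).iff_const _)).comap _
  obtain ⟨Θ, hΘ, hcol⟩ := blocks (OO_open HN φ K B T) hT N' Empty (Fin N' → Bool) Fcol hFcol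
  obtain ⟨τ, hτ⟩ := hcol (fun z => z.elim)
  have hτall : ∀ ε : Fin N' → Bool, ε ∈ τ := by
    intro ε
    obtain ⟨w, hw1, hw2⟩ := hτ ε
    rw [← hw2]
    -- the tuple of all blocks
    obtain ⟨t, ht⟩ := hBT (fun q => w (q.1.1, (q.1.2, q.2)))
    obtain ⟨v₀, -, hv2, hv3⟩ := ht (fun _ => true)
    refine ⟨fun q => v₀ (Sum.inl q.1, q.2), fun j => ?_⟩
    let r : Fin k ⊕ Option J₀ → Fin k ⊕ (Fin N' × Option J₀) :=
      Sum.map id (fun o => (j, o))
    have htj : {p | ((fun i => r (p.1 i)), p.2) ∈ t} ∈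
        TT φ K f B (fun i => f (w (j, i))) := by
      intro ε'
      obtain ⟨v, hv1, hv2, hv3⟩ := ht ε'
      refine ⟨fun q => v (r q.1, q.2), ?_, ?_, ?_⟩
      · intro i
        exact hv1 i
      · exact hv2.comap (fun q : Option J₀ × Fin m => ((j, q.1), q.2))
      · rw [pat_comap, hv3]
    have hO : (fun i => f (w (j, i))) ∈ OO f φ K B T (ε j) := (hΘ j (ε j)).2 (hw1 j)
    rw [← hO _ htj]
    -- membership in `S' T`
    have hpat : pat φ K (fun q : (Fin k ⊕ Option J₀) × Fin m => v₀ (r q.1, q.2)) =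
        {p | ((fun i => r (p.1 i)), p.2) ∈ t} := by
      rw [pat_comap, hv3]
    rw [← hpat]
    have heq : (fun q : (Fin k ⊕ Option J₀) × Fin m => (Sum.elim
        (fun x : Option J₀ × Fin m => f (w (j, x)))
        (fun y : Fin k × Fin m => v₀ (Sum.inl y.1, y.2))) (Sum.elim
      (fun i => (Sum.inr (i, q.2) : (Option J₀ × Fin m) ⊕ (Fin k × Fin m)))
      (fun o => Sum.inl (o, q.2)) q.1)) =
        (fun q : (Fin k ⊕ Option J₀) × Fin m => v₀ (r q.1, q.2)) := by
      funext q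
      obtain ⟨q1 | q1, q2⟩ := q
      · rfl
      · have := hv2.eq_of_point (u := fun q : (Fin N' × Option J₀) × Fin m =>
          w (q.1.1, (q.1.2, q.2))) ((j, q1), q2)
        exact this.symm
    rw [← heq]
    rfl
  obtain ⟨w, -, hw2⟩ := hτ (fun _ => true)
  apply hN' T
  refine ⟨fun q => f (w q), fun ε => ?_⟩
  have := (hw2 ε).2 (hτall ε)
  obtain ⟨c, hc⟩ := this
  exact ⟨c, fun i => hc i⟩

end MainSec

end Helper726LI
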